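import Pool.Agent.H40.ISH.Stmts2

/-!
Project ISH, part 2, module ISW: the isoperimetric inequality for subsets of the box.
-/

set_option linter.unusedVariables false

namespace Pool.ISH

open MeasureTheory Filter Topology
open scoped Classical Pointwise

/-- the last site of the finite set `W` on the line through `x` in direction `i` -/
private theorem isw_last (W : Finset Site) (i : Fin 3) (x : Site) (hx : x ∈ W) :
    ∃ y ∈ W, Function.update y i 0 = Function.update x i 0 ∧ y + ev i ∉ W := by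
  classical
  let T := W.filter (fun y => Function.update y i 0 = Function.update x i 0)
  have hT : T.Nonempty := ⟨x, Finset.mem_filter.2 ⟨hx, rfl⟩⟩
  obtain ⟨y, hy, hmax⟩ := Finset.exists_max_image T (fun y => y i) hT
  rw [Finset.mem_filter] at hy
  refine ⟨y, hy.1, hy.2, fun h => ?_⟩
  have h1 : y + ev i ∈ T := by
    rw [Finset.mem_filter]
    refine ⟨h, ?_⟩
    rw [← hy.2]
    funext j
    by_cases hj : j = i
    · subst hj; simp
    · simp [Function.update_of_ne hj, ev_ne hj]
  have h2 := hmax _ h1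
  simp only [Pi.add_apply, ev_same] at h2
  omega

/-- the first site -/
private theorem isw_first (W : Finset Site) (i : Fin 3) (x : Site) (hx : x ∈ W) :
    ∃ y ∈ W, Function.update y i 0 = Function.update x i 0 ∧ y - ev i ∉ W := by
  classical
  let T := W.filter (fun y => Function.update y i 0 = Function.update x i 0)
  have hT : T.Nonempty := ⟨x, Finset.mem_filter.2 ⟨hx, rfl⟩⟩
  obtain ⟨y, hy, hmin⟩ := Finset.exists_min_image T (fun y => y i) hT
  rw [Finset.mem_filter] at hy
  refine ⟨y, hy.1, hy.2, fun h => ?_⟩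
  have h1 : y - ev i ∈ T := by
    rw [Finset.mem_filter]
    refine ⟨h, ?_⟩
    rw [← hy.2]
    funext j
    by_cases hj : j = i
    · subst hj; simp
    · simp [Function.update_of_ne hj, ev_ne hj]
  have h2 := hmin _ h1
  simp only [Pi.sub_apply, ev_same] at h2
  omega

/-- two boundary bonds in direction `i` on every line which meets `W` -/
private theorem isw_dir (W : Finset Site) (i : Fin 3) :
    2 * (W.image (fun x => Function.update x i 0)).card ≤
      ((bd_finite W).toFinset.filter (fun b => b.2 = i)).card := by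
  classical
  set S := W.image (fun x => Function.update x i 0) with hS
  set B := (bd_finite W).toFinset.filter (fun b => b.2 = i) with hB
  have h1 : S ⊆ (B.filter (fun b => lo b ∈ W)).image (fun b => Function.update (lo b) i 0) := by
    intro z hz
    rw [hS, Finset.mem_image] at hz
    obtain ⟨x, hx, rfl⟩ := hz
    obtain ⟨y, hy, he, hn⟩ := isw_last W i x hx
    rw [Finset.mem_image]
    refine ⟨(y, i), ?_, he⟩
    rw [Finset.mem_filter, hB, Finset.mem_filter, Set.Finite.mem_toFinset]
    refine ⟨⟨?_, rfl⟩, hy⟩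
    rw [mem_bd]
    intro h
    exact hn (h.1 hy)
  have h2 : S ⊆ (B.filter (fun b => ¬ lo b ∈ W)).image (fun b => Function.update (lo b) i 0) := by
    intro z hz
    rw [hS, Finset.mem_image] at hz
    obtain ⟨x, hx, rfl⟩ := hz
    obtain ⟨y, hy, he, hn⟩ := isw_first W i x hx
    have hhi : hi ((y - ev i, i) : Bond) = y := by
      show y - ev i + ev i = y
      exact sub_add_cancel _ _
    rw [Finset.mem_image]
    refine ⟨(y - ev i, i), ?_, ?_⟩
    · rw [Finset.mem_filter, hB, Finset.mem_filter, Set.Finite.mem_toFinset]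
      refine ⟨⟨?_, rfl⟩, hn⟩
      rw [mem_bd, hhi]
      intro h
      exact hn (h.2 hy)
    · show Function.update (y - ev i) i 0 = _
      rw [← he]
      funext j
      by_cases hj : j = i
      · subst hj; simp
      · simp [Function.update_of_ne hj, ev_ne hj]
  have h3 := (Finset.card_le_card h1).trans Finset.card_image_le
  have h4 := (Finset.card_le_card h2).trans Finset.card_image_le
  have h5 := Finset.card_filter_add_card_filter_not (s := B) (fun b => lo b ∈ W)
  omega

/-- ISW -/
theorem isw (hW : LWHStmt) : ISWStmt := by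
  intro N W hWV
  set p : Fin 3 → ℕ := fun i => (W.image (fun x => Function.update x i 0)).card with hp
  have h1 : W.card ^ 2 ≤ p 0 * p 1 * p 2 := by
    have := hW W
    rwa [Fin.prod_univ_three] at this
  have h2 : (bd (W : Set Site)).ncard = ((bd_finite W).toFinset).card :=
    Set.ncard_eq_toFinset_card _ (bd_finite W)
  have h3 : 2 * p 0 + 2 * p 1 + 2 * p 2 ≤ (bd (W : Set Site)).ncard := by
    rw [h2, ← Finset.card_eq_sum_card_fiberwise (f := fun b : Bond => b.2)
      (t := Finset.univ) (fun _ _ => Finset.mem_univ _) |>.symm, Fin.sum_univ_three]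
    have h4 := isw_dir W 0
    have h5 := isw_dir W 1
    have h6 := isw_dir W 2
    simp only [hp]
    omega
  have h4 : W.card ≤ (2 * N + 1) ^ 3 := by
    rw [← card_Vb]
    exact Finset.card_le_card hWV
  set n := (bd (W : Set Site)).ncard with hn
  have h5 : 216 * W.card ^ 2 ≤ n ^ 3 := by
    have h6 : (2 * p 0 + 2 * p 1 + 2 * p 2) ^ 3 ≤ n ^ 3 := Nat.pow_le_pow_left h3 3
    have h7 : 27 * (p 0 * p 1 * p 2) ≤ (p 0 + p 1 + p 2) ^ 3 := by
      zify
      have a0 : (0 : ℤ) ≤ p 0 := Int.natCast_nonneg _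
      have a1 : (0 : ℤ) ≤ p 1 := Int.natCast_nonneg _
      have a2 : (0 : ℤ) ≤ p 2 := Int.natCast_nonneg _
      nlinarith [mul_nonneg a0 (sq_nonneg ((p 1 : ℤ) - p 2)),
        mul_nonneg a1 (sq_nonneg ((p 0 : ℤ) - p 2)), mul_nonneg a2 (sq_nonneg ((p 0 : ℤ) - p 1)),
        mul_nonneg a0 (sq_nonneg ((p 0 : ℤ) - p 1)), mul_nonneg a0 (sq_nonneg ((p 0 : ℤ) - p 2)),
        mul_nonneg a1 (sq_nonneg ((p 1 : ℤ) - p 0)), mul_nonneg a1 (sq_nonneg ((p 1 : ℤ) - p 2)),
        mul_nonneg a2 (sq_nonneg ((p 2 : ℤ) - p 0)), mul_nonneg a2 (sq_nonneg ((p 2 : ℤ) - p 1))]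
    calc 216 * W.card ^ 2 ≤ 216 * (p 0 * p 1 * p 2) := Nat.mul_le_mul_left _ h1
      _ = 8 * (27 * (p 0 * p 1 * p 2)) := by ring
      _ ≤ 8 * (p 0 + p 1 + p 2) ^ 3 := Nat.mul_le_mul_left _ h7
      _ = (2 * p 0 + 2 * p 1 + 2 * p 2) ^ 3 := by ring
      _ ≤ n ^ 3 := h6
  have h6 : (6 * W.card) ^ 3 ≤ ((2 * N + 1) * n) ^ 3 := by
    calc (6 * W.card) ^ 3 = W.card * (216 * W.card ^ 2) := by ring
      _ ≤ (2 * N + 1) ^ 3 * n ^ 3 := Nat.mul_le_mul h4 h5
      _ = ((2 * N + 1) * n) ^ 3 := by ring
  exact (Nat.pow_le_pow_iff_left (by norm_num)).1 h6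

end Pool.ISH
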