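import Pool.Agent.H40.ISH.Stmts2

/-!
Project ISH, part 2, module TYS: the Peierls estimate for the size of the interface and of the
large contours.
-/

set_option linter.unusedVariables false

namespace Pool.ISH

open MeasureTheory Filter Topology
open scoped Classical Pointwise

/-- TYS -/
theorem tys (hF : FLTStmt) (hL : LAMStmt) (hC : CLAStmt) : TYSStmt := by
  obtain ⟨C, hC⟩ := hC
  have hC0 : (0 : ℝ) ≤ C := Nat.cast_nonneg C
  refine ⟨C + 1, by positivity, fun β hβ N hN s => ?_⟩
  obtain ⟨Φ, hΦ⟩ := hF N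
  set P := (Vb N).powerset with hP
  have hNr : (1 : ℝ) ≤ N := by exact_mod_cast hN
  have hZ : 0 ≤ ZZ β N P := Finset.sum_nonneg fun A _ => (wt_pos β N A).le
  set E : ℝ := Real.exp (2 * β * (2 * (N : ℝ) + 1) ^ 2) with hE
  set a : ℝ := 2 * β - (C + 1) with ha
  have ha0 : 0 ≤ a := by rw [ha]; linarith
  set f : Finset Site → ℝ := fun A => wt β N A * Real.exp (a * lg N A) with hf
  have hmaps : ∀ A ∈ P, Lam N A ∈ P.image (Lam N) := fun A hA => Finset.mem_image_of_mem _ hA
  have h1 : ∑ A ∈ P, f A = ∑ Λ ∈ P.image (Lam N), ∑ A ∈ P.filter (fun A => Lam N A = Λ), f A :=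
    (Finset.sum_fiberwise_of_maps_to hmaps _).symm
  have h2 : ∀ Λ ∈ P.image (Lam N), ∑ A ∈ P.filter (fun A => Lam N A = Λ), f A ≤
      Real.exp (- ((C + 1) * (Λ.card : ℝ))) * (E * ZZ β N P) := by
    intro Λ _
    have h3 : ∀ A ∈ P.filter (fun A => Lam N A = Λ), f A ≤
        Real.exp (- ((C + 1) * (Λ.card : ℝ))) * (E * wt β N (symmDiff A (Φ Λ))) := by
      intro A hA
      rw [Finset.mem_filter, hP, Finset.mem_powerset] at hA
      obtain ⟨hA, rfl⟩ := hA
      obtain ⟨h4, h5⟩ := hΦ A hA
      have h6 : (en N (symmDiff A (Φ (Lam N A))) : ℝ) + lg N A ≤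
          en N A + (2 * (N : ℝ) + 1) ^ 2 := by exact_mod_cast h5
      obtain ⟨_, h7, _⟩ := hL N A hN
      rw [h7]
      simp only [hf, hE]
      unfold wt
      rw [← Real.exp_add, ← Real.exp_add, ← Real.exp_add]
      apply Real.exp_le_exp.2
      rw [ha]
      have hβ0 : 0 ≤ 2 * β := by linarith
      have h8 := mul_le_mul_of_nonneg_left h6 hβ0
      linarith
    refine (Finset.sum_le_sum h3).trans ?_
    rw [← Finset.mul_sum, ← Finset.mul_sum]
    refine mul_le_mul_of_nonneg_left (mul_le_mul_of_nonneg_left ?_ (Real.exp_pos _).le)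
      (Real.exp_pos _).le
    have hinj : Set.InjOn (fun A => symmDiff A (Φ Λ))
        (P.filter (fun A => Lam N A = Λ) : Finset (Finset Site)) := by
      intro A _ B _ hAB
      have := congrArg (fun X => symmDiff X (Φ Λ)) hAB
      simpa only [symmDiff_symmDiff_cancel_right] using this
    rw [← Finset.sum_image (f := fun A => wt β N A) hinj]
    unfold ZZ
    refine Finset.sum_le_sum_of_subset_of_nonneg ?_ fun A _ _ => (wt_pos β N A).le
    intro B hB
    rw [Finset.mem_image] at hB
    obtain ⟨A, hA, rfl⟩ := hB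
    rw [Finset.mem_filter, hP, Finset.mem_powerset] at hA
    obtain ⟨hA, rfl⟩ := hA
    rw [hP, Finset.mem_powerset]
    exact symmDiff_subset_Vb hA (hΦ A hA).1
  have h3 : ∑ Λ ∈ P.image (Lam N), Real.exp (- ((C + 1) * (Λ.card : ℝ))) ≤
      Real.exp (C * N) * 2 := by
    have hmaps : ∀ Λ ∈ P.image (Lam N), Λ.card ∈ Finset.range ((BV N).card + 1) := by
      intro Λ hΛ
      rw [Finset.mem_image] at hΛ
      obtain ⟨A, _, rfl⟩ := hΛ
      rw [Finset.mem_range, Nat.lt_succ_iff]
      exact Finset.card_le_card (hL N A hN).1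
    rw [← Finset.sum_fiberwise_of_maps_to hmaps]
    have h4 : ∀ s ∈ Finset.range ((BV N).card + 1),
        ∑ Λ ∈ (P.image (Lam N)).filter (fun Λ => Λ.card = s),
          Real.exp (- ((C + 1) * (Λ.card : ℝ))) ≤ Real.exp (C * N) * (1 / 2) ^ s := by
      intro s _
      have h5 : ∑ Λ ∈ (P.image (Lam N)).filter (fun Λ => Λ.card = s),
          Real.exp (- ((C + 1) * (Λ.card : ℝ))) =
          (((P.image (Lam N)).filter (fun Λ => Λ.card = s)).card : ℝ) *
            Real.exp (- ((C + 1) * (s : ℝ))) := by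
        rw [← nsmul_eq_mul, ← Finset.sum_const]
        refine Finset.sum_congr rfl fun Λ hΛ => ?_
        rw [Finset.mem_filter] at hΛ
        rw [hΛ.2]
      rw [h5]
      have h6 : ((P.image (Lam N)).filter (fun Λ => Λ.card = s)).card ≤ 2 ^ (C * (N + s)) := by
        refine le_trans (Finset.card_le_card ?_) (hC N s hN)
        intro Λ hΛ
        rw [Finset.mem_filter, Finset.mem_image] at hΛ
        obtain ⟨⟨A, _, rfl⟩, hs⟩ := hΛ
        rw [Finset.mem_filter, Finset.mem_powerset]
        exact ⟨(hL N A hN).1, hs, (hL N A hN).2.2⟩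
      have h7 : (((P.image (Lam N)).filter (fun Λ => Λ.card = s)).card : ℝ) ≤
          (2 : ℝ) ^ (C * (N + s)) := by exact_mod_cast h6
      have h8 : (2 : ℝ) ≤ Real.exp 1 := by
        have := Real.add_one_le_exp (1 : ℝ)
        linarith
      have h9 : (2 : ℝ) ^ (C * (N + s)) ≤ Real.exp (C * (N + s)) := by
        calc (2 : ℝ) ^ (C * (N + s)) ≤ (Real.exp 1) ^ (C * (N + s)) := by gcongr
          _ = Real.exp (C * (N + s)) := by
              rw [← Real.exp_nat_mul]
              push_cast
              ring_nf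
      have h10 : Real.exp (- (s : ℝ)) ≤ (1 / 2) ^ s := by
        rw [one_div, inv_pow, Real.exp_neg]
        apply inv_anti₀ (by positivity)
        calc (2 : ℝ) ^ s ≤ (Real.exp 1) ^ s := by gcongr
          _ = Real.exp s := by rw [← Real.exp_nat_mul]; ring_nf
      calc (((P.image (Lam N)).filter (fun Λ => Λ.card = s)).card : ℝ) *
            Real.exp (- ((C + 1) * (s : ℝ)))
          ≤ Real.exp (C * (N + s)) * Real.exp (- ((C + 1) * (s : ℝ))) :=
            mul_le_mul_of_nonneg_right (h7.trans h9) (Real.exp_pos _).le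
        _ = Real.exp (C * N) * Real.exp (- (s : ℝ)) := by
            rw [← Real.exp_add, ← Real.exp_add]
            congr 1
            ring
        _ ≤ Real.exp (C * N) * (1 / 2) ^ s :=
            mul_le_mul_of_nonneg_left h10 (Real.exp_pos _).le
    refine (Finset.sum_le_sum h4).trans ?_
    rw [← Finset.mul_sum]
    exact mul_le_mul_of_nonneg_left (sum_geometric_two_le _) (Real.exp_pos _).le
  have h4 : ∑ A ∈ P, f A ≤ (Real.exp (C * N) * 2) * (E * ZZ β N P) := by
    rw [h1]
    refine (Finset.sum_le_sum h2).trans ?_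
    rw [← Finset.sum_mul]
    exact mul_le_mul_of_nonneg_right h3 (mul_nonneg (Real.exp_pos _).le hZ)
  have h5 : (2 : ℝ) ≤ Real.exp N := by
    have h6 := Real.add_one_le_exp (N : ℝ)
    linarith
  -- Markov
  have h6 : ZZ β N (P.filter (fun A => s ≤ (lg N A : ℝ))) ≤
      Real.exp (- (a * s)) * ∑ A ∈ P, f A := by
    unfold ZZ
    rw [Finset.mul_sum]
    calc ∑ A ∈ P.filter (fun A => s ≤ (lg N A : ℝ)), wt β N A
        ≤ ∑ A ∈ P.filter (fun A => s ≤ (lg N A : ℝ)), Real.exp (- (a * s)) * f A := by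
          refine Finset.sum_le_sum fun A hA => ?_
          rw [Finset.mem_filter] at hA
          have h7 : (1 : ℝ) ≤ Real.exp (- (a * s)) * Real.exp (a * lg N A) := by
            rw [← Real.exp_add]
            apply Real.one_le_exp
            have := mul_le_mul_of_nonneg_left hA.2 ha0
            linarith
          calc wt β N A = wt β N A * 1 := (mul_one _).symm
            _ ≤ wt β N A * (Real.exp (- (a * s)) * Real.exp (a * lg N A)) :=
                mul_le_mul_of_nonneg_left h7 (wt_pos β N A).le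
            _ = Real.exp (- (a * s)) * f A := by rw [hf]; ring
      _ ≤ ∑ A ∈ P, Real.exp (- (a * s)) * f A := by
          refine Finset.sum_le_sum_of_subset_of_nonneg (Finset.filter_subset _ _)
            fun A _ _ => ?_
          rw [hf]
          exact mul_nonneg (Real.exp_pos _).le
            (mul_nonneg (wt_pos β N A).le (Real.exp_pos _).le)
  refine h6.trans ?_
  calc Real.exp (- (a * s)) * ∑ A ∈ P, f A
      ≤ Real.exp (- (a * s)) * ((Real.exp (C * N) * 2) * (E * ZZ β N P)) :=
        mul_le_mul_of_nonneg_left h4 (Real.exp_pos _).le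
    _ ≤ Real.exp (- (a * s)) * ((Real.exp (C * N) * Real.exp N) * (E * ZZ β N P)) := by
        gcongr
    _ = Real.exp (2 * β * (2 * (N : ℝ) + 1) ^ 2 + (C + 1) * N - (2 * β - (C + 1)) * s) *
        ZZ β N P := by
        rw [hE, ← mul_assoc, ← mul_assoc, ← Real.exp_add, ← Real.exp_add, ← Real.exp_add]
        congr 2
        rw [ha]
        ring

end Pool.ISH
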