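import Pool.Agent.H40.ISH.Stmts2

/-!
Project ISH, part 2, module VOL: the volume between the rescaled interface and the plane.
-/

set_option linter.unusedVariables false

namespace Pool.ISH

open MeasureTheory Filter Topology
open scoped Classical Pointwise

/-- the volume of a closed box -/
private theorem vol_box (a b : Fin 3 → ℝ) :
    volume {y : E3 | ∀ i, a i ≤ y i ∧ y i ≤ b i} =
      ENNReal.ofReal (b 0 - a 0) * ENNReal.ofReal (b 1 - a 1) * ENNReal.ofReal (b 2 - a 2) := by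
  have h1 : {y : E3 | ∀ i, a i ≤ y i ∧ y i ≤ b i} =
      (fun y : E3 => (WithLp.ofLp y : Fin 3 → ℝ)) ⁻¹' (Set.Icc a b) := by
    ext y
    simp only [Set.mem_ofPred_eq, Set.mem_preimage, Set.mem_Icc, Pi.le_def]
    exact ⟨fun h => ⟨fun i => (h i).1, fun i => (h i).2⟩, fun h i => ⟨h.1 i, h.2 i⟩⟩
  rw [h1]
  have h2 := (PiLp.volume_preserving_ofLp (Fin 3)).measure_preimage
    (measurableSet_Icc (a := a) (b := b)).nullMeasurableSet
  have h3 : volume ((fun y : E3 => (WithLp.ofLp y : Fin 3 → ℝ)) ⁻¹' (Set.Icc a b)) =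
      volume (Set.Icc a b) := h2
  rw [h3, Real.volume_Icc_pi, Fin.prod_univ_three]

/-- VOL -/
theorem vol : VOLStmt := by
  intro N A b hN hb0 hb1
  have hNr : (1 : ℝ) ≤ N := by exact_mod_cast hN
  have hN0 : (0 : ℝ) < N := by linarith
  set D := Dis N b (below N A) with hD
  -- the covering
  have hcov : {y : E3 | y ∈ Qc ∧ ¬ (y ∈ region N A ↔ y ∈ Kb b)} ⊆
      (⋃ x ∈ D, {y : E3 | ∀ i, ((x i : ℝ) - 1 / 2) / N ≤ y i ∧ y i ≤ ((x i : ℝ) + 1 / 2) / N}) ∪
      {y : E3 | ∀ i, (![-1, -1, b / 8 - 1 / (2 * N)] : Fin 3 → ℝ) i ≤ y i ∧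
        y i ≤ (![1, 1, b / 8 + 1 / (2 * N)] : Fin 3 → ℝ) i} := by
    rintro y ⟨hy, hny⟩
    set x : Site := fun i => round ((N : ℝ) * y i) with hx
    have hr : ∀ i, |(N : ℝ) * y i - x i| ≤ 1 / 2 := fun i => abs_sub_round _
    have hxV : x ∈ Vb N := by
      rw [mem_Vb]
      intro i
      have h1 := hy i
      rw [abs_le] at h1 ⊢
      have h2 : (N : ℝ) * y i ≤ N := by nlinarith [h1.2]
      have h3 : -(N : ℝ) ≤ (N : ℝ) * y i := by nlinarith [h1.1]
      have h4 := abs_le.1 (hr i)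
      constructor
      · have h5 : (-(N : ℝ)) - 1 < x i := by linarith [h4.2]
        have h6 : (((-(N : ℤ)) - 1 : ℤ) : ℝ) < ((x i : ℤ) : ℝ) := by push_cast; linarith
        have h7 : (-(N : ℤ)) - 1 < x i := by exact_mod_cast h6
        omega
      · have h5 : (x i : ℝ) < N + 1 := by linarith [h4.1]
        have h6 : ((x i : ℤ) : ℝ) < (((N : ℤ) + 1 : ℤ) : ℝ) := by push_cast; linarith
        have h7 : x i < (N : ℤ) + 1 := by exact_mod_cast h6
        omega
    by_cases hxD : x ∈ D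
    · left
      rw [Set.mem_iUnion₂]
      refine ⟨x, hxD, fun i => ?_⟩
      have h4 := abs_le.1 (hr i)
      constructor
      · rw [div_le_iff₀ hN0]
        linarith [h4.1]
      · rw [le_div_iff₀ hN0]
        linarith [h4.2]
    · right
      have h5 : x ∈ below N A ↔ ((x 2 : ℤ) : ℝ) ≤ b * N / 8 := by
        by_contra hc
        exact hxD (Finset.mem_filter.2 ⟨hxV, hc⟩)
      have h6 : y ∈ region N A ↔ x ∈ below N A := ⟨fun h => h.2, fun h => ⟨hy, h⟩⟩
      have h7 : ¬ (((x 2 : ℤ) : ℝ) ≤ b * N / 8 ↔ y 2 ≤ b / 8) := by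
        intro h
        exact hny (h6.trans (h5.trans h))
      have h8 := abs_le.1 (hr 2)
      have h9 : b / 8 - 1 / (2 * N) ≤ y 2 ∧ y 2 ≤ b / 8 + 1 / (2 * N) := by
        have e1 : b / 8 - 1 / (2 * N) = (b * N / 8 - 1 / 2) / N := by field_simp
        have e2 : b / 8 + 1 / (2 * N) = (b * N / 8 + 1 / 2) / N := by field_simp
        rw [e1, e2, div_le_iff₀ hN0, le_div_iff₀ hN0]
        by_cases h10 : ((x 2 : ℤ) : ℝ) ≤ b * N / 8
        · have h11 : ¬ y 2 ≤ b / 8 := fun h => h7 ⟨fun _ => h, fun _ => h10⟩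
          push Not at h11
          constructor
          · nlinarith
          · linarith [h8.2]
        · have h11 : y 2 ≤ b / 8 := by
            by_contra h
            exact h7 ⟨fun h' => absurd h' h10, fun h' => absurd h' h⟩
          push Not at h10
          constructor
          · linarith [h8.1]
          · nlinarith
      intro i
      have hyi := abs_le.1 (hy i)
      fin_cases i
      · exact ⟨by simpa using hyi.1, by simpa using hyi.2⟩
      · exact ⟨by simpa using hyi.1, by simpa using hyi.2⟩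
      · exact ⟨by simpa using h9.1, by simpa using h9.2⟩
  have hvol : vdist N A (Kb b) ≤ (∑ x ∈ D, volume {y : E3 | ∀ i, ((x i : ℝ) - 1 / 2) / N ≤ y i ∧
      y i ≤ ((x i : ℝ) + 1 / 2) / N}) +
      volume {y : E3 | ∀ i, (![-1, -1, b / 8 - 1 / (2 * N)] : Fin 3 → ℝ) i ≤ y i ∧
        y i ≤ (![1, 1, b / 8 + 1 / (2 * N)] : Fin 3 → ℝ) i} := by
    unfold vdist
    refine (measure_mono hcov).trans ((measure_union_le _ _).trans ?_)
    gcongr
    exact measure_biUnion_finset_le _ _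
  refine hvol.trans ?_
  have h1 : ∀ x ∈ D, volume {y : E3 | ∀ i, ((x i : ℝ) - 1 / 2) / N ≤ y i ∧
      y i ≤ ((x i : ℝ) + 1 / 2) / N} = ENNReal.ofReal (1 / (N : ℝ) ^ 3) := by
    intro x _
    rw [vol_box (fun i => ((x i : ℝ) - 1 / 2) / N) (fun i => ((x i : ℝ) + 1 / 2) / N)]
    have e : ∀ i, ((x i : ℝ) + 1 / 2) / N - ((x i : ℝ) - 1 / 2) / N = 1 / N := by
      intro i
      field_simp
      ring
    simp only [e]
    rw [← ENNReal.ofReal_mul (by positivity), ← ENNReal.ofReal_mul (by positivity)]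
    congr 1
    field_simp
  have h2 : volume {y : E3 | ∀ i, (![-1, -1, b / 8 - 1 / (2 * N)] : Fin 3 → ℝ) i ≤ y i ∧
        y i ≤ (![1, 1, b / 8 + 1 / (2 * N)] : Fin 3 → ℝ) i} = ENNReal.ofReal (4 / N) := by
    rw [vol_box]
    have e2 : b / 8 + 1 / (2 * (N : ℝ)) - (b / 8 - 1 / (2 * N)) = 1 / N := by
      field_simp
      ring
    simp only [Matrix.cons_val_zero, Matrix.cons_val_one, Matrix.cons_val]
    rw [e2, ← ENNReal.ofReal_mul (by norm_num), ← ENNReal.ofReal_mul (by norm_num)]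
    congr 1
    ring
  rw [Finset.sum_congr rfl h1, h2, Finset.sum_const, nsmul_eq_mul, ← ENNReal.ofReal_natCast,
    ← ENNReal.ofReal_mul (by positivity), ← ENNReal.ofReal_add (by positivity) (by positivity)]
  apply le_of_eq
  congr 1
  ring

end Pool.ISH
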